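import Pool.Agent.KS6_51.FLC.Factor

/-!
# MP_c73427_an, Q1 (negative answer): free locally convex spaces which are Schwartz spaces

`(L, i)` is the free locally convex space of the (Tychonoff) space `X`.

* `IsFreeLCS`, `Refl`, `MultiReflexive`, `IsSchwartz` are the definitions of the library
  (`Pool.Graph.R_seed8.R280.FS.Stm`); `ContainsEllOne R` (`Pool.Graph...H756V.Abs`) says that there
  is a continuous linear map `T : ℓ₁ → R` with `c ‖a‖ ≤ ‖T a‖` for some `c > 0`.
* `MultiEllOneFree L`: `L` is linearly and topologically isomorphic to a linear subspace of a
  product of Banach spaces none of which contains an isomorphic copy of `ℓ₁`.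
* `Factors X`: every continuous map of `X` into a Banach space is a composition of continuous maps
  `X → K → E` with `K` locally compact, σ-compact and metrizable.
* `Exhausted X`: for every continuous map `f` of `X` into a metric space there is a continuous
  `ρ : X → ℝ` such that `f {ρ ≤ n}` is totally bounded for every `n`.
-/

set_option autoImplicit false

universe u v w

namespace Pool.Agent.Results.MP_c73427_an.EllOneFreeProducts

open Pool.Agent.R280.FS Pool.Agent.H756V Pool.Agent.KS6_51.FLC

/-- Let `(L, i)` be the free locally convex space of `X`.

(1) `L` is a Schwartz space if and only if every continuous map of `X` into a Banach space factors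
through a locally compact σ-compact metrizable space.

(2) `L` is a Schwartz space if and only if for every continuous map `f` of `X` into a metric space
there is a continuous real function `ρ` on `X` such that all the sets `f {ρ ≤ n}` are totally
bounded.

(3) If `L` is isomorphic to a subspace of a product of Banach spaces none of which contains an
isomorphic copy of `ℓ₁`, then `L` is a Schwartz space.

(4) This is so if `L` is multi-reflexive; so a multi-reflexive `L` is a Schwartz space (Q1). -/
theorem result (X : Type u) [TopologicalSpace X] (L : Type u) [AddCommGroup L]
    [Module ℝ L] [TopologicalSpace L] [IsTopologicalAddGroup L] [ContinuousSMul ℝ L]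
    [LocallyConvexSpace ℝ L] [T2Space L] (i : X → L) (hi : IsFreeLCS X L i) :
    (IsSchwartz L ↔ Factors X) ∧
    (IsSchwartz L ↔ Exhausted X) ∧
    (MultiEllOneFree.{u, v, w} L → IsSchwartz L) ∧
    (MultiReflexive.{u, v, w} L → MultiEllOneFree.{u, v, w} L ∧ IsSchwartz L) := by
  have h3 : MultiEllOneFree.{u, v, w} L → IsSchwartz L := fun h =>
    schwartz_of_exhausted X L i hi (exhausted_of_ellOneFree X L i hi h)
  refine ⟨⟨fun h => factors_of_exhausted X (exhausted_of_schwartz X L i hi h),
    fun h => schwartz_of_exhausted X L i hi (exhausted_of_factors X h)⟩,
    ⟨exhausted_of_schwartz X L i hi, schwartz_of_exhausted X L i hi⟩, h3, fun h => ?_⟩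
  have h4 := ellOneFree_of_multiReflexive.{u, v, w} L h
  exact ⟨h4, h3 h4⟩

end Pool.Agent.Results.MP_c73427_an.EllOneFreeProducts
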